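import Mathlib

set_option autoImplicit false
open Set MeasureTheory Real ProbabilityTheory
open scoped ENNReal

namespace Pool.Agent.H.MP_31abd3_an

variable {n : ℕ}

noncomputable def polar (f : (Fin n → ℝ) → ℝ) (y : Fin n → ℝ) : ℝ :=
  ⨅ x : {x // 0 < f x}, exp (-∑ i, x.1 i * y i) / f x

noncomputable def vp (f : (Fin n → ℝ) → ℝ) : ℝ≥0∞ :=
  (∫⁻ x, ENNReal.ofReal (f x)) * ∫⁻ y, ENNReal.ofReal (polar f y)

noncomputable def kk (ε s u x : ℝ) : ℝ := (√(2 * π * s))⁻¹ * exp (-(x - ε * u) ^ 2 / (2 * s))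

noncomputable def ch (δ : ℝ) : ℝ → ℝ := (Icc (-1) (-1 + δ) ∪ Icc (1 / 2) 1).indicator 1

noncomputable def hh (δ ε s x : ℝ) : ℝ := ∫ u, ch δ u * kk ε s u x

lemma polar_le {f : (Fin n → ℝ) → ℝ} {x : Fin n → ℝ} (hx : 0 < f x) (y : Fin n → ℝ) :
    polar f y ≤ exp (-∑ i, x i * y i) / f x :=
  ciInf_le ⟨0, by rintro _ ⟨x, rfl⟩; exact (div_pos (exp_pos _) x.2).le⟩ (⟨x, hx⟩ : {x // 0 < f x})

variable {δ ε s : ℝ}

lemma ch_int (h0 : 0 < δ) (h1 : δ < 1) {g : ℝ → ℝ} (hg : Continuous g) : Integrable (fun u => ch δ u * g u) ∧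
    ∫ u, ch δ u * g u = (∫ u in Icc (-1) (-1 + δ), g u) + ∫ u in Icc (1 / 2) 1, g u := by
  have e : (fun u => ch δ u * g u) = (Icc (-1) (-1 + δ) ∪ Icc (1 / 2) 1).indicator g := by
    ext u; simp only [ch, indicator]; split_ifs <;> simp
  rw [e, integrable_indicator_iff (by measurability), integral_indicator (by measurability)]
  exact ⟨hg.integrableOn_Icc.union hg.integrableOn_Icc, setIntegral_union
    (disjoint_left.2 fun u a b => by linarith [a.2, b.1]) measurableSet_Icc hg.integrableOn_Icc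
    hg.integrableOn_Icc⟩

lemma ch0 (u : ℝ) : 0 ≤ ch δ u := indicator_nonneg (fun _ _ => zero_le_one) u

lemma ch_abs (h1 : δ < 1) {u : ℝ} (h : ch δ u ≠ 0) : ch δ u = 1 ∧ |u| ≤ 1 := by
  have := mem_of_indicator_ne_zero h
  refine ⟨indicator_of_mem this _, abs_le.2 ?_⟩
  rcases this with h | h <;> constructor <;> linarith [h.1, h.2]

lemma ch_mass (h0 : 0 < δ) (h1 : δ < 1) : Integrable (ch δ) ∧ ∫ u, ch δ u = δ + 1 / 2 := by
  have := ch_int h0 h1 (continuous_const (y := (1 : ℝ)))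
  simp only [mul_one] at this
  refine ⟨this.1, this.2.trans ?_⟩
  simp [h0.le]; norm_num

lemma kk_pos (hs : 0 < s) (u x : ℝ) : 0 < kk ε s u x := by unfold kk; positivity

lemma hh_mass (h0 : 0 < δ) (h1 : δ < 1) (hs : 0 < s) :
    Integrable (hh δ ε s) ∧ ∫ x, hh δ ε s x = δ + 1 / 2 := by
  have k : ∀ u, kk ε s u = gaussianPDFReal (ε * u) ⟨s, hs.le⟩ := fun u => rfl
  have k1 : ∀ u, ∫ x, kk ε s u x = 1 := fun u => by
    rw [k]; exact integral_gaussianPDFReal_eq_one _ fun e => hs.ne' (congrArg NNReal.toReal e)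
  have i : Integrable (Function.uncurry fun u x => ch δ u * kk ε s u x) (volume.prod volume) := by
    rw [integrable_prod_iff (Measurable.aestronglyMeasurable (by unfold ch kk; measurability))]
    refine ⟨.of_forall fun u => (integrable_gaussianPDFReal (ε * u) ⟨s, hs.le⟩).const_mul (ch δ u), ?_⟩
    simpa [abs_of_nonneg (ch0 _), abs_of_pos (kk_pos hs _ _), integral_const_mul, k1] using
      (ch_mass h0 h1).1
  refine ⟨i.integral_prod_right, ?_⟩
  rw [← (ch_mass h0 h1).2]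
  exact (integral_integral_swap i).symm.trans (by simp [integral_const_mul, k1])

lemma kk_cont (x : ℝ) : Continuous fun u => kk ε s u x := by unfold kk; fun_prop

lemma hh_low (h0 : 0 < δ) (h1 : δ < 1) (hs : 0 < s) (x : ℝ) :
    (δ + 1 / 2) * ((√(2 * π * s))⁻¹ * exp (-(x ^ 2 + ε ^ 2) / s)) ≤ hh δ ε s x := by
  rw [← (ch_mass h0 h1).2, ← integral_mul_const]
  refine integral_mono ((ch_mass h0 h1).1.mul_const _) (ch_int h0 h1 (kk_cont x)).1 fun u => ?_
  by_cases h : ch δ u = 0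
  · simp [h]
  refine mul_le_mul_of_nonneg_left ?_ (ch0 u)
  unfold kk
  gcongr _ * exp ?_
  rw [div_le_div_iff₀ hs (by positivity)]
  have : u ^ 2 ≤ 1 := by rw [← sq_abs]; exact pow_le_one₀ (abs_nonneg _) (ch_abs h1 h).2
  nlinarith [mul_nonneg hs.le (sq_nonneg (x + ε * u)), mul_nonneg hs.le
    (mul_nonneg (sq_nonneg ε) (sub_nonneg.2 this))]

lemma hh_pos (h0 : 0 < δ) (h1 : δ < 1) (hs : 0 < s) (x : ℝ) : 0 < hh δ ε s x :=
  lt_of_lt_of_le (by positivity) (hh_low h0 h1 hs x)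

lemma hh_up (h0 : 0 < δ) (h1 : δ < 1) {σ : ℝ} (hσ : 0 < σ) (hε : 0 < ε) (x : ℝ) {y : ℝ}
    (hy : y ∈ Icc (-2 / σ) (-1 / σ)) : exp (x * y) * hh δ ε (σ ^ 2) x ≤
      (√(2 * π * σ ^ 2))⁻¹ * exp 2 * (δ * exp (2 * (ε / σ)) + 1 / 2 * exp (-(ε / σ) / 2)) := by
  obtain ⟨w, rfl⟩ : ∃ w, y = -w / σ := ⟨-y * σ, by field_simp⟩
  have w1 : 1 ≤ w := by have := (div_le_div_iff_of_pos_right hσ).1 hy.2; linarith
  have w2 : w ≤ 2 := by have := (div_le_div_iff_of_pos_right hσ).1 hy.1; linarith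
  have k : ∀ u b, -(ε / σ) * u * w ≤ b → exp (x * (-w / σ)) * kk ε (σ ^ 2) u x ≤
      (√(2 * π * σ ^ 2))⁻¹ * exp 2 * exp b := fun u b hb => by
    rw [kk, mul_left_comm, mul_assoc _ (exp 2), ← exp_add, ← exp_add]
    gcongr _ * exp ?_
    rw [show x * (-w / σ) + -(x - ε * u) ^ 2 / (2 * σ ^ 2) = w ^ 2 / 2 + -(ε / σ) * u * w -
      ((x - ε * u) / σ + w) ^ 2 / 2 by field_simp; ring]
    nlinarith [sq_nonneg ((x - ε * u) / σ + w)]
  have κ := div_pos hε hσ
  rw [hh, (ch_int h0 h1 (kk_cont x)).2, mul_add, mul_add, ← integral_const_mul, ← integral_const_mul]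
  have c := ((kk_cont (ε := ε) (s := σ ^ 2) x).const_mul (exp (x * (-w / σ))))
  refine add_le_add ((setIntegral_mono_on c.integrableOn_Icc continuous_const.integrableOn_Icc
    measurableSet_Icc fun u hu => k u (2 * (ε / σ)) ?_).trans_eq ?_) ((setIntegral_mono_on
    c.integrableOn_Icc continuous_const.integrableOn_Icc measurableSet_Icc fun u hu =>
      k u (-(ε / σ) / 2) ?_).trans_eq ?_)
  · nlinarith [mul_nonneg κ.le (show 0 ≤ 2 + u * w by nlinarith [hu.1])]
  · simp [h0.le]; ring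
  · nlinarith [mul_nonneg κ.le (show 0 ≤ u * w - 1 / 2 by nlinarith [hu.1])]
  · simp; norm_num; ring

lemma mass (h0 : 0 < δ) (h1 : δ < 1) (hs : 0 < s) : ∫⁻ x : Fin n → ℝ,
    ENNReal.ofReal (∏ i, hh δ ε s (x i)) = ENNReal.ofReal ((δ + 1 / 2) ^ n) := by
  rw [volume_pi, ← ofReal_integral_eq_lintegral_ofReal (Integrable.fintype_prod fun _ => (hh_mass h0 h1 hs).1)
    (.of_forall fun x => Finset.prod_nonneg fun i _ => (hh_pos h0 h1 hs _).le),
    integral_fintype_prod_eq_pow, (hh_mass h0 h1 hs).2, Fintype.card_fin]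

lemma up (h0 : 0 < δ) (h1 : δ < 1) (hs : 0 < s) (h : ε ^ 2 ≤ s) :
    vp (fun x : Fin n → ℝ => ∏ i, hh δ ε s (x i)) ≤ ENNReal.ofReal (30 ^ n) := by
  have i := (integrable_exp_neg_mul_sq (b := s / 4) (by positivity)).const_mul
    (√(2 * π * s) * 3 / (δ + 1 / 2))
  have := lintegral_mono (μ := volume) fun y : Fin n → ℝ => ENNReal.ofReal_le_ofReal
    ((polar_le (f := fun x : Fin n → ℝ => ∏ i, hh δ ε s (x i)) (x := fun i => s / 2 * y i)
      (Finset.prod_pos fun i _ => hh_pos h0 h1 hs _) y).trans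
      (show _ ≤ ∏ i, √(2 * π * s) * 3 / (δ + 1 / 2) * exp (-(s / 4) * y i ^ 2) by
        rw [← Finset.sum_neg_distrib, exp_sum, ← Finset.prod_div_distrib]
        refine Finset.prod_le_prod (fun i _ => (div_pos (exp_pos _) (hh_pos h0 h1 hs _)).le) fun i _ => ?_
        refine (div_le_div_of_nonneg_left (exp_pos _).le (by positivity) (hh_low h0 h1 hs _)).trans ?_
        rw [show -((s / 2 * y i) ^ 2 + ε ^ 2) / s = -(s / 4) * y i ^ 2 - ε ^ 2 / s by field_simp; ring,
          show -(s / 2 * y i * y i) = -(s / 4) * y i ^ 2 + -(s / 4) * y i ^ 2 by ring, exp_add, exp_sub]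
        have := (exp_le_exp.2 ((div_le_one hs).2 h)).trans exp_one_lt_d9.le
        field_simp
        linarith))
  rw [volume_pi, ← ofReal_integral_eq_lintegral_ofReal (Integrable.fintype_prod fun _ => i)
    (.of_forall fun x => by positivity), integral_fintype_prod_eq_pow
    (fun y => √(2 * π * s) * 3 / (δ + 1 / 2) * exp (-(s / 4) * y ^ 2)), integral_const_mul,
    integral_gaussian, Fintype.card_fin] at this
  rw [vp, mass h0 h1 hs]
  refine (mul_le_mul_right this _).trans ?_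
  rw [← ENNReal.ofReal_mul (by positivity), ← mul_pow]
  refine ENNReal.ofReal_le_ofReal (pow_le_pow_left₀ (by positivity) ?_ _)
  have : √(2 * π * s) * √(π / (s / 4)) ≤ 10 := by
    rw [← sqrt_mul (by positivity), sqrt_le_iff, show 2 * π * s * (π / (s / 4)) = 8 * π ^ 2 by
      field_simp; ring]
    exact ⟨by norm_num, by nlinarith [pi_lt_d2, pi_pos]⟩
  field_simp at this ⊢
  linarith

lemma low (h0 : 0 < δ) (h1 : δ < 1) {σ : ℝ} (hσ : 0 < σ) (hε : 0 < ε)
    (h : δ * exp (2 * (ε / σ)) + 1 / 2 * exp (-(ε / σ) / 2) ≤ 1 / 500) :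
    ENNReal.ofReal (40 ^ n) ≤ vp (fun x : Fin n → ℝ => ∏ i, hh δ ε (σ ^ 2) (x i)) := by
  have hs := pow_pos hσ 2
  have := setLIntegral_mono' (μ := volume) (s := Icc (fun _ : Fin n => -2 / σ) fun _ => -1 / σ)
    (f := fun _ => ENNReal.ofReal ((80 * σ) ^ n)) (g := fun y => ENNReal.ofReal
      (polar (fun x : Fin n → ℝ => ∏ i, hh δ ε (σ ^ 2) (x i)) y)) measurableSet_Icc fun y hy => by
    have : Nonempty {x : Fin n → ℝ // 0 < ∏ i, hh δ ε (σ ^ 2) (x i)} :=
      ⟨⟨0, Finset.prod_pos fun i _ => hh_pos h0 h1 hs _⟩⟩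
    refine ENNReal.ofReal_le_ofReal (le_ciInf fun x => ?_)
    rw [← Finset.sum_neg_distrib, exp_sum, ← Finset.prod_div_distrib, ← Fin.prod_const]
    refine Finset.prod_le_prod (fun i _ => by positivity) fun i _ => ?_
    have a := (hh_up h0 h1 hσ hε (x.1 i) ⟨hy.1 i, hy.2 i⟩).trans
      (mul_le_mul_of_nonneg_left h (by positivity))
    have b : 2 * σ ≤ √(2 * π * σ ^ 2) := le_sqrt_of_sq_le (by nlinarith [pi_gt_three])
    have c : exp 2 ≤ 9 := by
      rw [show (2 : ℝ) = 1 + 1 by norm_num, exp_add]; nlinarith [exp_one_lt_d9, exp_pos 1]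
    have d := a.trans (mul_le_mul_of_nonneg_right (mul_le_mul (inv_anti₀ (by positivity) b) c
      (by positivity) (by positivity)) (by norm_num))
    have := hh_pos (ε := ε) h0 h1 hs (x.1 i)
    rw [exp_neg]
    field_simp at d ⊢
    nlinarith [mul_pos (mul_pos (exp_pos (x.1 i * y i)) this) hσ]
  rw [setLIntegral_const, volume_Icc_pi, Fin.prod_const, ← ENNReal.ofReal_pow (by
    rw [← sub_div]; positivity), ← ENNReal.ofReal_mul (by positivity), ← mul_pow] at this
  rw [vp, mass h0 h1 hs]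
  refine le_trans ?_ (mul_le_mul_right (this.trans (setLIntegral_le_lintegral _ _)) _)
  rw [← ENNReal.ofReal_mul (by positivity), ← mul_pow]
  refine ENNReal.ofReal_le_ofReal (pow_le_pow_left₀ (by positivity) ?_ _)
  field_simp
  linarith

lemma pol (h0 : 0 < δ) (h1 : δ < 1) (y : Fin n → ℝ) :
    polar (fun x : Fin n → ℝ => ∏ i, ch δ (x i)) y = exp (-∑ i, |y i|) := by
  have e : ∀ i, ch δ (if 0 ≤ y i then 1 else -1) = 1 := fun i => indicator_of_mem (by
    split_ifs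
    · right; norm_num
    · left; simp [h0.le]) _
  have p : 0 < ∏ i, ch δ (if 0 ≤ y i then 1 else -1) := by simp [e]
  refine le_antisymm ((polar_le (f := fun x : Fin n → ℝ => ∏ i, ch δ (x i)) p y).trans_eq ?_) ?_
  · simp only [e, Finset.prod_const_one, div_one]
    congr 2
    refine Finset.sum_congr rfl fun i _ => ?_
    split_ifs with h
    · simp [abs_of_nonneg h]
    · simp [abs_of_neg (not_le.1 h)]
  · have : Nonempty {x : Fin n → ℝ // 0 < ∏ i, ch δ (x i)} := ⟨⟨_, p⟩⟩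
    refine le_ciInf fun x => ?_
    have a := fun i => ch_abs h1 (Finset.prod_ne_zero_iff.1 x.2.ne' i (Finset.mem_univ i))
    simp only [fun i => (a i).1, Finset.prod_const_one, div_one]
    gcongr with i
    refine (le_abs_self _).trans ?_
    rw [abs_mul]
    exact mul_le_of_le_one_left (abs_nonneg _) (a i).2

lemma dom {g : (Fin n → ℝ) → ℝ} (hg : Continuous g) (h : ∀ y, |g y| ≤ 1 + ∑ i, |y i|) :
    Integrable fun y => g y * exp (-∑ i, |y i|) := by
  refine ((Integrable.fintype_prod fun _ : Fin n => integrable_inv_one_add_sq.const_mul 8).const_mul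
    2).mono' (Continuous.aestronglyMeasurable (by fun_prop)) (.of_forall fun y => ?_)
  have a : exp (-(∑ i, |y i|) / 2) ≤ ∏ i, 8 * (1 + y i ^ 2)⁻¹ := by
    rw [← Finset.sum_neg_distrib, Finset.sum_div, exp_sum]
    refine Finset.prod_le_prod (fun i _ => by positivity) fun i _ => ?_
    have := quadratic_le_exp_of_nonneg (x := |y i| / 2) (by positivity)
    rw [neg_div, exp_neg]
    field_simp
    nlinarith [sq_abs (y i), abs_nonneg (y i)]
  have b := add_one_le_exp ((∑ i, |y i|) / 2)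
  refine le_trans ?_ (mul_le_mul_of_nonneg_left a zero_le_two)
  rw [norm_mul, norm_eq_abs, norm_eq_abs, abs_of_pos (exp_pos _)]
  have := h y
  generalize ∑ i, |y i| = S at *
  rw [show -S / 2 = S / 2 + -S by ring, exp_add, ← mul_assoc]
  gcongr
  linarith [(exp_pos (S / 2)).le, abs_nonneg (g y)]

noncomputable def flow (f : (Fin n → ℝ) → ℝ) (t : ℝ) (x : Fin n → ℝ) : ℝ :=
  ∫ u : Fin n → ℝ, f u * ∏ i, ((√(2 * π * (1 - exp (-2 * t))))⁻¹ *
    exp (-(x i - exp (-t) * u i) ^ 2 / (2 * (1 - exp (-2 * t)))))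

lemma flow_eq (hε : 0 < ε) : flow (fun x : Fin n → ℝ => ∏ i, ch δ (x i)) (-log ε) =
    fun x => ∏ i, hh δ ε (1 - ε ^ 2) (x i) := by
  ext x
  have : exp (-2 * -log ε) = ε ^ 2 := by
    rw [show -2 * -log ε = log ε + log ε by ring, exp_add, exp_log hε, sq]
  simp only [flow, this, neg_neg, exp_log hε, ← Finset.prod_mul_distrib]
  exact integral_fintype_prod_volume_eq_prod fun i u => ch δ u * kk ε (1 - ε ^ 2) u (x i)

theorem main (hn : 0 < n) : ∃ f : (Fin n → ℝ) → ℝ, Measurable f ∧ (∀ x, 0 ≤ f x) ∧ Integrable f ∧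
    0 < ∫ x, f x ∧ Integrable (polar f) ∧ 0 < ∫ y, polar f y ∧
    (∀ i, Integrable (fun y => y i * polar f y) ∧ ∫ y, y i * polar f y = 0) ∧
    ∃ t₁ t₂ : ℝ, 0 < t₁ ∧ t₁ < t₂ ∧ vp (flow f t₂) < vp (flow f t₁) := by
  obtain ⟨ε, σ, e0, e1, s0, hs, hk⟩ : ∃ ε σ : ℝ, 3 / 5 < ε ∧ ε < 1 ∧ 0 < σ ∧ 1 - ε ^ 2 = σ ^ 2 ∧
    2000 ≤ ε / σ := ⟨16008000 / 16008002, 8002 / 16008002, by norm_num⟩
  have h0 : 0 < exp (-(2 * (ε / σ))) / 1000 := by positivity
  have h1 : exp (-(2 * (ε / σ))) / 1000 < 1 := by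
    have := exp_le_one_iff.2 (show -(2 * (ε / σ)) ≤ 0 by linarith)
    linarith
  have p := funext (pol (n := n) h0 h1)
  have i := dom (n := n) continuous_const (g := fun _ => 1) fun y => by simp; positivity
  simp only [one_mul] at i
  refine ⟨fun x => ∏ i, ch (exp (-(2 * (ε / σ))) / 1000) (x i), by unfold ch; measurability,
    fun x => Finset.prod_nonneg fun i _ => ch0 _, Integrable.fintype_prod fun _ => (ch_mass h0 h1).1,
    ?_, p ▸ i, p ▸ integral_exp_pos i, fun i => ?_, -log ε, -log (3 / 5),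
    neg_pos.2 (log_neg (by linarith) e1), neg_lt_neg (log_lt_log (by norm_num) e0), ?_⟩
  · rw [integral_fintype_prod_volume_eq_pow, (ch_mass h0 h1).2]; positivity
  · rw [p]
    refine ⟨dom (continuous_apply i) fun y => (Finset.single_le_sum (fun j _ => abs_nonneg (y j))
      (Finset.mem_univ i)).trans (by simp), ?_⟩
    have := integral_neg_eq_self (fun y : Fin n → ℝ => y i * exp (-∑ i, |y i|)) volume
    simp only [Pi.neg_apply, abs_neg, neg_mul, integral_neg] at this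
    linarith
  rw [flow_eq (by norm_num), flow_eq (by linarith), hs]
  refine ((up h0 h1 (by norm_num) (by norm_num)).trans_lt ((ENNReal.ofReal_lt_ofReal_iff
    (by positivity)).2 (pow_lt_pow_left₀ (by norm_num) (by norm_num) hn.ne'))).trans_le
    (low h0 h1 s0 (by linarith) ?_)
  have := add_one_le_exp (ε / σ / 2)
  rw [div_mul_eq_mul_div, ← exp_add, neg_add_cancel, exp_zero, neg_div, exp_neg]
  have := inv_anti₀ (by norm_num) (show 500 ≤ exp (ε / σ / 2) by linarith)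
  linarith

end Pool.Agent.H.MP_31abd3_an
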